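import Pool.Agent.Q276.SM.Trans

/-! An irreducible representation `ρ : G_K → GL₂(𝔽̄₃)`, `K = ℚ(i)`, with determinant `1`, unramified
above `3`, of Serre conductor `𝔑 = (6 + 29 i)`, while `H¹(Y₀(𝔑), 𝔽̄₃) = 0`. -/

set_option autoImplicit false

namespace Pool.Agent.Results.MP_94f623_nt.ZeroHeckeAlgebra

open Q276.SM

/-- With `K = ℚ(i)`, `p = 3` and `𝔑 = (6 + 29 i)`, a prime ideal of norm `877`: there is a continuous
irreducible `ρ : G_K → GL₂(𝔽̄₃)` of determinant `1` and Serre conductor `𝔑`, unramified above `3`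
(hence finite flat there), while `H¹(Y₀(𝔑), 𝔽̄₃) = 0`, so that no ring of endomorphisms of
`H¹(Y₀(𝔑), 𝔽̄₃)` has a ring homomorphism to `𝔽̄₃`. -/
theorem result :
    Prime (3 : O) ∧ Prime (⟨6, 29⟩ : O) ∧
    (∃ ρ : GalK →* GL2, IsContinuous ρ ∧ IsIrreducible ρ ∧ (∀ σ, (ρ σ).val.det = 1) ∧
      IsSerreConductor ρ (Ideal.span {⟨6, 29⟩}) ∧ IsUnramifiedAboveThree ρ) ∧
    Subsingleton (HOne (Y0 (Ideal.span {⟨6, 29⟩})) Fbar) ∧
    ∀ T : Subring (EndH1 (Ideal.span {⟨6, 29⟩})), IsEmpty (T →+* Fbar) := by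
  have hs : Subsingleton (HOne (Y0 lev) Fbar) := HOne_subsingleton
  refine ⟨?_, ?_, ⟨rhoN, rhoN_cont, rhoN_irred, rhoN_det, rhoN_serre, rhoN_three⟩, hs, ?_⟩
  · have : Fact (Nat.Prime 3) := ⟨by norm_num⟩
    exact GaussianInt.prime_of_nat_prime_of_mod_four_eq_three 3 rfl
  · have h1 : lev.IsPrime := lev_max.isPrime
    have h2 : dlt ≠ 0 := by decide
    exact (Ideal.span_singleton_prime h2).1 h1
  · intro T
    refine ⟨fun f => ?_⟩
    have h01 : (0 : T) = 1 := by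
      apply Subtype.ext
      apply LinearMap.ext
      intro x
      exact hs.elim _ _
    have h2 : (0 : Fbar) = 1 := by
      rw [← map_zero f, ← map_one f, h01]
    exact zero_ne_one h2

end Pool.Agent.Results.MP_94f623_nt.ZeroHeckeAlgebra
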